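import Mathlib
import Pool.Agent.J4H89.WU.Stm

/-!
# WU: invariance (job IDL)
-/

set_option autoImplicit false

namespace Pool.Agent.J4H17.WU

open MeasureTheory
open Pool.Agent.TH968.UST Pool.Agent.J4H89.WU
open scoped ENNReal unitInterval

theorem tsum_transport {A B : Set ℕ} {φ : ℕ → ℕ} (hφ : Set.BijOn φ A B) (g g' : ℕ → ℝ≥0∞)
    (hg : ∀ w, w ∉ A → g w = 0) (hg' : ∀ w, w ∉ B → g' w = 0) (h : ∀ w ∈ A, g' (φ w) = g w) :
    ∑' w, g' w = ∑' w, g w := by
  have e1 : ∑' w, g' w = ∑' w : B, g' w :=
    (tsum_subtype_eq_of_support_subset fun w hw => by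
      by_contra h'
      exact hw (hg' w h')).symm
  have e2 : ∑' w, g w = ∑' w : A, g w :=
    (tsum_subtype_eq_of_support_subset fun w hw => by
      by_contra h'
      exact hw (hg w h')).symm
  rw [e1, e2, ← Equiv.tsum_eq (Set.BijOn.equiv φ hφ)]
  exact tsum_congr fun w => h w.1 w.2

theorem mem_comp_adj {G : SimpleGraph ℕ} {x y w : ℕ} (hy : y ∈ comp G x) (h : G.Adj y w) :
    w ∈ comp G x := SimpleGraph.Reachable.trans hy h.reachable

theorem comp_eq {G : SimpleGraph ℕ} {x y : ℕ} (hy : y ∈ comp G x) : comp G y = comp G x := by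
  ext z
  exact ⟨fun hz => SimpleGraph.Reachable.trans hy hz,
    fun hz => SimpleGraph.Reachable.trans (SimpleGraph.Reachable.symm hy) hz⟩

variable {G G' : SimpleGraph ℕ} {x : ℕ} {φ : ℕ → ℕ}

theorem avg_transport (h : CIso G G' x φ) (f f' : ℕ → ℝ≥0∞) (hf : ∀ w ∈ comp G x, f' (φ w) = f w)
    {y : ℕ} (hy : y ∈ comp G x) : avg G' f' (φ y) = avg G f y := by
  classical
  have hy' : φ y ∈ comp G' (φ x) := h.1.mapsTo hy
  unfold avg
  congr 1
  · refine tsum_transport h.1 _ _ ?_ ?_ ?_
    · intro w hw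
      exact if_neg fun hadj => hw (mem_comp_adj hy hadj)
    · intro w hw
      exact if_neg fun hadj => hw (mem_comp_adj hy' hadj)
    · intro w hw
      simp only [h.2 y hy w hw, hf w hw]
  · refine tsum_transport h.1 _ _ ?_ ?_ ?_
    · intro w hw
      exact if_neg fun hadj => hw (mem_comp_adj hy hadj)
    · intro w hw
      exact if_neg fun hadj => hw (mem_comp_adj hy' hadj)
    · intro w hw
      simp only [h.2 y hy w hw]

theorem pk_transport (h : CIso G G' x φ) {z : ℕ} (hz : z ∈ comp G x) (k : ℕ) :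
    ∀ y ∈ comp G x, pk G' (φ z) k (φ y) = pk G z k y := by
  induction k with
  | zero =>
    intro y hy
    simp only [pk, h.1.injOn.eq_iff hy hz]
  | succ k ih =>
    intro y hy
    simp only [pk]
    exact avg_transport h _ _ ih hy

theorem ces_transport (h : CIso G G' x φ) (n : ℕ) {y z : ℕ} (hy : y ∈ comp G x)
    (hz : z ∈ comp G x) : ces G' n (φ y) (φ z) = ces G n y z := by
  unfold ces
  rw [Finset.sum_congr rfl fun k _ => pk_transport h hz k y hy]

theorem pk_reach (G : SimpleGraph ℕ) (s k : ℕ) : ∀ x, pk G s k x ≠ 0 → G.Reachable x s := by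
  classical
  induction k with
  | zero =>
    intro x hx
    simp only [pk] at hx
    by_cases h : x = s
    · rw [h]
    · rw [if_neg h] at hx
      exact absurd rfl hx
  | succ k ih =>
    intro x hx
    simp only [pk] at hx
    unfold avg at hx
    have h1 : (∑' w, if G.Adj x w then pk G s k w else 0) ≠ 0 := by
      intro h0
      rw [h0, ENNReal.zero_div] at hx
      exact hx rfl
    obtain ⟨w, hw⟩ : ∃ w, (if G.Adj x w then pk G s k w else 0) ≠ 0 := by
      by_contra hcon
      push Not at hcon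
      exact h1 (by simp only [hcon, tsum_zero])
    by_cases hadj : G.Adj x w
    · rw [if_pos hadj] at hw
      exact hadj.reachable.trans (ih w hw)
    · rw [if_neg hadj] at hw
      exact absurd rfl hw

theorem ces_reach (G : SimpleGraph ℕ) (n x s : ℕ) (h : ces G n x s ≠ 0) : G.Reachable x s := by
  unfold ces at h
  have h1 : (∑ k ∈ Finset.range n, pk G s k x) ≠ 0 := by
    intro h0
    rw [h0, ENNReal.zero_div] at h
    exact h rfl
  obtain ⟨k, _, hk⟩ := Finset.exists_ne_zero_of_sum_ne_zero h1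
  exact pk_reach G s k x hk

theorem ces_zero {G : SimpleGraph ℕ} {x y s : ℕ} (n : ℕ) (hy : y ∈ comp G x) (hs : s ∉ comp G x) :
    ces G n y s = 0 := by
  by_contra h
  exact hs (SimpleGraph.Reachable.trans hy (ces_reach G n y s h))

theorem dl_transport (h : CIso G G' x φ) (n : ℕ) {y : ℕ} (hy : y ∈ comp G x) :
    dl G' n (φ y) = dl G n y := by
  classical
  have hy' : φ y ∈ comp G' (φ x) := h.1.mapsTo hy
  unfold dl
  refine tsum_transport h.1 _ _ ?_ ?_ ?_
  · intro w hw
    exact if_neg fun hadj => hw (mem_comp_adj hy hadj)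
  · intro w hw
    exact if_neg fun hadj => hw (mem_comp_adj hy' hadj)
  · intro w hw
    have e : ∑' s, ad (ces G' n (φ y) s) (ces G' n (φ w) s) = ∑' s, ad (ces G n y s) (ces G n w s) := by
      have hw' : φ w ∈ comp G' (φ x) := h.1.mapsTo hw
      refine tsum_transport h.1 _ _ ?_ ?_ ?_
      · intro s hs
        rw [ces_zero n hy hs, ces_zero n hw hs]
        simp [ad]
      · intro s hs
        rw [ces_zero n hy' hs, ces_zero n hw' hs]
        simp [ad]
      · intro s hs
        rw [ces_transport h n hy hs, ces_transport h n hw hs]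
    simp only [h.2 y hy w hw, e]

/-- Job IDL. -/
theorem t_IDL : S_IDL := by
  intro G G' x φ h n y hy
  exact ⟨fun z hz => ces_transport h n hy hz, dl_transport h n hy⟩

end Pool.Agent.J4H17.WU
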