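import Mathlib
import Pool.Agent.J4H89.WU.Stm

/-!
# WU: measurability (jobs MDL and MCELL)
-/

set_option autoImplicit false

namespace Pool.Agent.J4H17.WU

open MeasureTheory
open Pool.Agent.TH968.UST Pool.Agent.J4H89.WU
open scoped ENNReal unitInterval

theorem meas_adj (v w : ℕ) : Measurable fun G : SimpleGraph ℕ => G.Adj v w :=
  measurable_pi_iff.1 (measurable_pi_iff.1 SimpleGraph.measurable_adj v) w

theorem meas_avg (f : SimpleGraph ℕ → ℕ → ℝ≥0∞) (hf : ∀ w, Measurable fun G => f G w) (v : ℕ) :
    Measurable fun G : SimpleGraph ℕ => avg G (f G) v := by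
  unfold avg
  refine Measurable.div ?_ ?_
  · refine Measurable.ennreal_tsum fun w => ?_
    exact Measurable.ite (measurableSet_setOf.2 (meas_adj v w)) (hf w) measurable_const
  · refine Measurable.ennreal_tsum fun w => ?_
    exact Measurable.ite (measurableSet_setOf.2 (meas_adj v w)) measurable_const measurable_const

theorem meas_pk (s k : ℕ) : ∀ x, Measurable fun G : SimpleGraph ℕ => pk G s k x := by
  induction k with
  | zero => intro x; simp only [pk]; exact measurable_const
  | succ k ih => intro x; simp only [pk]; exact meas_avg (fun G => pk G s k) ih x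

theorem meas_ces (n x s : ℕ) : Measurable fun G : SimpleGraph ℕ => ces G n x s := by
  unfold ces
  exact (Finset.measurable_sum _ fun k _ => meas_pk s k x).div measurable_const

theorem meas_ad {α : Type*} [MeasurableSpace α] {f g : α → ℝ≥0∞} (hf : Measurable f)
    (hg : Measurable g) : Measurable fun a => ad (f a) (g a) := by
  unfold ad
  exact (hf.sub hg).add (hg.sub hf)

theorem meas_dl (n x : ℕ) : Measurable fun G : SimpleGraph ℕ => dl G n x := by
  unfold dl
  refine Measurable.ennreal_tsum fun y => ?_
  refine Measurable.ite (measurableSet_setOf.2 (meas_adj x y)) ?_ measurable_const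
  exact Measurable.ennreal_tsum fun s => meas_ad (meas_ces n x s) (meas_ces n y s)

/-- reachable in `n` steps -/
def RN (G : SimpleGraph ℕ) (x : ℕ) : ℕ → ℕ → Prop
  | 0, y => x = y
  | n + 1, y => ∃ z, RN G x n z ∧ G.Adj z y

theorem meas_RN (x n : ℕ) : ∀ y, Measurable fun G : SimpleGraph ℕ => RN G x n y := by
  induction n with
  | zero => intro y; simp only [RN]; exact measurable_const
  | succ n ih =>
    intro y
    simp only [RN]
    exact Measurable.exists fun z => (ih z).and (meas_adj z y)

theorem reach_RN (G : SimpleGraph ℕ) (x y : ℕ) : G.Reachable x y ↔ ∃ n, RN G x n y := by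
  rw [SimpleGraph.reachable_iff_reflTransGen]
  constructor
  · intro h
    induction h with
    | refl => exact ⟨0, rfl⟩
    | tail _ hbc ih =>
      obtain ⟨n, hn⟩ := ih
      exact ⟨n + 1, _, hn, hbc⟩
  · rintro ⟨n, hn⟩
    induction n generalizing y with
    | zero => rw [show x = y from hn]
    | succ n ih =>
      obtain ⟨z, hz, hzy⟩ := hn
      exact (ih z hz).tail hzy

theorem meas_reach (x y : ℕ) : MeasurableSet {G : SimpleGraph ℕ | G.Reachable x y} := by
  rw [measurableSet_setOf]
  simp only [reach_RN]
  exact Measurable.exists fun n => meas_RN x n y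

/-- Job MDL. -/
theorem t_MDL : S_MDL := ⟨meas_ces, meas_dl, meas_reach⟩

/-! ### the cells -/

theorem meas_cap (ns : ℕ → ℕ) (m x s : ℕ) :
    Measurable fun p : SimpleGraph ℕ × (ℕ → ℕ → I) => s ∈ cap ns p.1 p.2 m x := by
  unfold cap
  simp only [Set.mem_setOf_eq]
  rw [← measurableSet_setOf]
  refine measurableSet_lt ?_ ?_
  · refine ENNReal.measurable_ofReal.comp ?_
    refine measurable_subtype_coe.comp ?_
    exact (measurable_pi_apply m).comp ((measurable_pi_apply s).comp measurable_snd)
  · exact measurable_const.mul ((meas_ces (ns m) x s).comp measurable_fst)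

theorem meas_same (ns : ℕ → ℕ) (m x y : ℕ) :
    Measurable fun p : SimpleGraph ℕ × (ℕ → ℕ → I) => same ns p.1 p.2 m x y := by
  unfold same
  refine Measurable.or measurable_const (Measurable.and ?_ ?_)
  · simp only [Set.ext_iff]
    exact Measurable.forall fun s => (meas_cap ns m x s).iff (meas_cap ns m y s)
  · exact Measurable.exists fun s => meas_cap ns m x s

theorem meas_cellSet (ns : ℕ → ℕ) (k x y : ℕ) :
    Measurable fun p : SimpleGraph ℕ × (ℕ → ℕ → I) => y ∈ cellSet ns p.1 p.2 k x := by
  unfold cellSet
  simp only [Set.mem_setOf_eq]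
  exact Measurable.forall fun m => Measurable.imp measurable_const (meas_same ns m x y)

theorem meas_cellSet_eq (ns : ℕ → ℕ) (k x : ℕ) (A : Finset ℕ) :
    Measurable fun p : SimpleGraph ℕ × (ℕ → ℕ → I) => cellSet ns p.1 p.2 k x = (A : Set ℕ) := by
  simp only [Set.ext_iff]
  exact Measurable.forall fun y => (meas_cellSet ns k x y).iff measurable_const

theorem meas_fin (ns : ℕ → ℕ) (k x : ℕ) :
    Measurable fun p : SimpleGraph ℕ × (ℕ → ℕ → I) => (cellSet ns p.1 p.2 k x).Finite := by
  have e : (fun p : SimpleGraph ℕ × (ℕ → ℕ → I) => (cellSet ns p.1 p.2 k x).Finite) =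
      fun p => ∃ A : Finset ℕ, cellSet ns p.1 p.2 k x = (A : Set ℕ) := by
    funext p
    apply propext
    constructor
    · intro h
      exact ⟨h.toFinset, h.coe_toFinset.symm⟩
    · rintro ⟨A, hA⟩
      rw [hA]
      exact A.finite_toSet
  rw [e]
  exact Measurable.exists fun A => meas_cellSet_eq ns k x A

/-- Job MCELL. -/
theorem t_MCELL : S_MCELL := by
  intro ns k x A
  rw [measurableSet_setOf]
  cases k with
  | zero => simp only [cell]; exact measurable_const
  | succ k =>
    have e : (fun p : SimpleGraph ℕ × (ℕ → ℕ → I) => cell ns p.1 p.2 (k + 1) x = A) =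
        fun p => (cellSet ns p.1 p.2 k x = (A : Set ℕ)) ∨
          (¬ (cellSet ns p.1 p.2 k x).Finite ∧ {x} = A) := by
      funext p
      apply propext
      simp only [cell]
      by_cases h : (cellSet ns p.1 p.2 k x).Finite
      · rw [dif_pos h]
        constructor
        · intro hA
          left
          rw [← hA, h.coe_toFinset]
        · rintro (hA | hA)
          · rw [← Finset.coe_inj, h.coe_toFinset, hA]
          · exact absurd h hA.1
      · rw [dif_neg h]
        constructor
        · intro hA
          exact Or.inr ⟨h, hA⟩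
        · rintro (hA | hA)
          · exact absurd (by rw [hA]; exact A.finite_toSet) h
          · exact hA.2
    rw [e]
    exact (meas_cellSet_eq ns k x A).or ((meas_fin ns k x).not.and measurable_const)

end Pool.Agent.J4H17.WU
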